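import Pool.Agent.Lib.MP_9cc147_pr.Cx.U.C
import Pool.Agent.Lib.MP_9cc147_pr.Cx.S1

/-! The cross term at the two singular corners, and the statement on the background. -/

open scoped Classical
open Finset

noncomputable section
namespace Pool.Agent.Lib.MP_9cc147_pr.Cx

namespace U

theorem cs (f g : P → ℝ) (S : Finset P) :
    (∑ p ∈ S, F2 f g p) ^ 2 ≤ (∑ p ∈ S, F2 f f p) * ∑ p ∈ S, F2 g g p := by
  have h := sum_mul_sq_le_sq_mul_sq (S ×ˢ (univ : Finset (Fin 4))) (fun e => dg f e.1 e.2)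
    fun e => dg g e.1 e.2
  simpa only [sum_product, sq, F2] using h

theorem edge_d {s u v a b : ℝ} (h : |a - b| ≤ s) (ha : |a| ≤ 1) :
    (a * u - b * v) * (a * u - b * v) ≤ 2 * ((u - v) * (u - v)) + 2 * (s ^ 2 * v ^ 2) := by
  have h1 : (a - b) ^ 2 ≤ s ^ 2 := sq_le_sq' (abs_le.1 h).1 (abs_le.1 h).2
  have h2 : a ^ 2 ≤ 1 := by simpa using ha
  nlinarith [sq_nonneg (a * (u - v) - (a - b) * v), mul_nonneg (sub_nonneg.2 h1) (sq_nonneg v),
    mul_nonneg (sub_nonneg.2 h2) (sq_nonneg (u - v))]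

theorem face_d {s : ℝ} {χ : P → ℝ} (h : Lip s χ) (h1 : ∀ p, |χ p| ≤ 1) (f : P → ℝ) (p : P) :
    F2 (fun p => χ p * f p) (fun p => χ p * f p) p ≤ 2 * F2 f f p + 2 * (s ^ 2 * Q4 f p) := by
  obtain ⟨x, y⟩ := p
  simp only [F2_eq, Q4]
  have e1 := edge_d (u := f (x + 1, y + 1)) (v := f (x + 1, y)) (h (x + 1) y).2 (h1 _)
  have e2 := edge_d (u := f (x, y + 1)) (v := f (x + 1, y + 1))
    ((abs_sub_comm _ _).trans_le (h x (y + 1)).1) (h1 _)
  have e3 := edge_d (u := f (x, y)) (v := f (x, y + 1)) ((abs_sub_comm _ _).trans_le (h x y).2)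
    (h1 _)
  have e4 := edge_d (u := f (x + 1, y)) (v := f (x, y)) (h x y).1 (h1 _)
  linarith

theorem poin {g : P → ℝ} {l : ℕ} (g0 : ∀ x : ℤ, 0 ≤ x → x ≤ l → g (x, 0) = 0) :
    ∑ p ∈ rc 0 l 0 l, Q4 g p ≤ 4 * l ^ 2 * Bf g g 0 l 0 l := by
  have k : ∀ x x' y : ℤ, x' = x ∨ x' = x + 1 → 0 ≤ x → x < l → 0 ≤ y → y ≤ l →
      g (x', y) ^ 2 ≤ l * ∑ t ∈ Ico (0 : ℤ) l, F2 g g (x, t) := fun x x' y e a b c d => by
    obtain ⟨r, rfl⟩ := Int.eq_ofNat_of_zero_le c
    have ht := tele (fun y => g (x', y)) r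
    rw [g0 x' (by omega) (by omega), sub_zero] at ht
    rw [ico_range]
    refine ht.trans (mul_le_mul (by exact_mod_cast d) ((sum_le_sum fun t _ => ?_).trans
      (sum_le_sum_of_subset_of_nonneg (range_mono (by omega : r ≤ l)) fun _ _ _ => F2_nn _ _))
      (sum_nonneg fun _ _ => sq_nonneg _) (Nat.cast_nonneg _))
    rw [← F4_eq, F4]
    rcases e with rfl | rfl
    · nlinarith [sq_nonneg (g (x' + 1, (t : ℤ) + 1) - g (x' + 1, t)),
        sq_nonneg (g (x', (t : ℤ) + 1) - g (x' + 1, t + 1)), sq_nonneg (g (x' + 1, t) - g (x', t))]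
    · nlinarith [sq_nonneg (g (x, t) - g (x, (t : ℤ) + 1)),
        sq_nonneg (g (x, (t : ℤ) + 1) - g (x + 1, t + 1)), sq_nonneg (g (x + 1, t) - g (x, t))]
  rw [Bf_eq, rc, sum_product, mul_sum]
  refine sum_le_sum fun x hx => ?_
  rw [mem_Ico] at hx
  refine (sum_le_card_nsmul _ _ (4 * (l * ∑ t ∈ Ico (0 : ℤ) l, F2 g g (x, t))) fun y hy => ?_).trans
    (le_of_eq ?_)
  · rw [mem_Ico] at hy
    unfold Q4
    linarith [k x x y (by simp) hx.1 hx.2 hy.1 hy.2.le,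
      k x (x + 1) y (by simp) hx.1 hx.2 hy.1 hy.2.le,
      k x x (y + 1) (by simp) hx.1 hx.2 (by omega) (by omega),
      k x (x + 1) (y + 1) (by simp) hx.1 hx.2 (by omega) (by omega)]
  · simp only [Int.card_Ico, sub_zero, Int.toNat_natCast, nsmul_eq_mul]
    ring

theorem corn {f g : P → ℝ} {l : ℕ} (hl : 100 ≤ l)
    (hf : ∀ x y : ℤ, 0 < x → x < l → 0 < y → y < l → Har f x y)
    (e1 : Bf f f ((l / 4 : ℕ) + 1) l 0 l ≤ 196) (e2 : Bf f f 0 l ((l / 4 : ℕ) + 1) l ≤ 196)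
    (g0 : ∀ x : ℤ, 0 ≤ x → x ≤ l → g (x, 0) = 0) (g1 : ∀ y : ℤ, 0 ≤ y → y ≤ l → g (0, y) = 0) :
    Bf f g 0 l 0 l ^ 2 ≤ 80000 * Bf g g 0 l 0 l := by
  obtain ⟨k, hk⟩ : ∃ k, k = l / 4 := ⟨_, rfl⟩
  rw [← hk] at e1 e2
  have k0 : 0 < k := by omega
  let ψ : ℤ → ℝ := fun x => rmp k (2 * k + 1 - x)
  have p1 : ∀ x, |ψ x| ≤ 1 := fun x => abs_le.2
    ⟨by linarith [rmp_0 k (2 * k + 1 - x)], rmp_1 _ _⟩
  have hl1 := lip_prod p1 p1 (fun x => rmp_lip k (by rw [abs_le]; omega))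
    fun x => rmp_lip k (by rw [abs_le]; omega)
  let χ : P → ℝ := fun p => 1 - ψ p.1 * ψ p.2
  have hl2 : Lip (1 / k) χ := fun x y => by
    simp only [χ, sub_sub_sub_cancel_left]
    exact ⟨(abs_sub_comm _ _).trans_le (hl1 x y).1, (abs_sub_comm _ _).trans_le (hl1 x y).2⟩
  have c1 : ∀ p, |χ p| ≤ 1 := fun p => by
    have a := mul_nonneg (rmp_0 k (2 * k + 1 - p.1)) (rmp_0 k (2 * k + 1 - p.2))
    have b := mul_le_one₀ (rmp_1 k (2 * k + 1 - p.1)) (rmp_0 k (2 * k + 1 - p.2)) (rmp_1 _ _)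
    exact abs_le.2 ⟨by simp only [χ, ψ]; linarith, by simp only [χ, ψ]; linarith⟩
  have h0 := orth (g := fun p => ψ p.1 * ψ p.2 * g p) hf fun x y a b c d e => by
    rcases e with rfl | rfl | rfl | rfl
    · simp only [g1 y c d, mul_zero]
    · simp only [ψ, rmp_lo k (show 2 * k + 1 - (l : ℤ) ≤ 0 by omega), zero_mul]
    · simp only [g0 x a b, mul_zero]
    · simp only [ψ, rmp_lo k (show 2 * k + 1 - (l : ℤ) ≤ 0 by omega), zero_mul, mul_zero]
  let S := (rc 0 l 0 l).filter fun p => (k : ℤ) + 1 ≤ p.1 ∨ (k : ℤ) + 1 ≤ p.2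
  have h1 : Bf f g 0 l 0 l = ∑ p ∈ S, F2 f (fun p => χ p * g p) p := by
    rw [← sub_zero (Bf f g 0 l 0 l), ← h0, Bf, Bf, ← sum_sub_distrib, sum_filter]
    refine sum_congr rfl fun p _ => ?_
    rw [F2_eq _ _ p.1 p.2, F2_eq _ _ p.1 p.2, F2_eq _ _ p.1 p.2]
    split_ifs with h
    · simp only [χ]
      ring
    · have q1 : ψ p.1 = 1 := rmp_hi k0 (by omega)
      have q2 : ψ (p.1 + 1) = 1 := rmp_hi k0 (by omega)
      have q3 : ψ p.2 = 1 := rmp_hi k0 (by omega)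
      have q4 : ψ (p.2 + 1) = 1 := rmp_hi k0 (by omega)
      simp only [q1, q2, q3, q4, one_mul, sub_self]
  have h2 : ∑ p ∈ S, F2 f f p ≤ 392 := by
    have a := sum_union_inter (s₁ := rc (k + 1) l 0 l) (s₂ := rc 0 l (k + 1) l) (f := F2 f f)
    have b : ∑ p ∈ S, F2 f f p ≤ ∑ p ∈ rc (k + 1) l 0 l ∪ rc 0 l (k + 1) l, F2 f f p :=
      sum_le_sum_of_subset_of_nonneg (fun p hp => by
        simp only [S, mem_filter, mem_union, mem_rc] at *
        omega) fun _ _ _ => F2_nn _ _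
    have c : 0 ≤ ∑ p ∈ rc (k + 1) l 0 l ∩ rc 0 l (k + 1) l, F2 f f p :=
      sum_nonneg fun _ _ => F2_nn _ _
    rw [Bf] at e1 e2
    linarith
  have h3 : ∑ p ∈ S, F2 (fun p => χ p * g p) (fun p => χ p * g p) p ≤ 202 * Bf g g 0 l 0 l := by
    refine (sum_le_sum_of_subset_of_nonneg (filter_subset _ _) fun _ _ _ => F2_nn _ _).trans
      ((sum_le_sum fun p _ => face_d hl2 c1 g p).trans ?_)
    rw [sum_add_distrib, ← mul_sum, ← mul_sum, ← mul_sum]
    have a := mul_le_mul_of_nonneg_left (poin g0) (sq_nonneg (1 / k : ℝ))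
    have l9 : (l : ℝ) ^ 2 * (1 / k) ^ 2 ≤ 25 := by
      have h2 : (l : ℝ) ≤ 5 * k := by exact_mod_cast (by omega : l ≤ 5 * k)
      have h3 : (0 : ℝ) < k := by exact_mod_cast k0
      rw [← mul_pow, mul_one_div, show (25 : ℝ) = 5 ^ 2 by norm_num]
      gcongr
      rwa [div_le_iff₀ h3]
    have b := mul_le_mul_of_nonneg_right l9 (Bf_nn g 0 l 0 l)
    rw [← Bf]
    nlinarith
  rw [h1]
  refine (cs _ _ _).trans ((mul_le_mul h2 h3 (sum_nonneg fun _ _ => F2_nn _ _)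
    (by norm_num)).trans ?_)
  linarith [Bf_nn g 0 l 0 l]

theorem Bf_rot (f g : P → ℝ) (n a b c d : ℤ) :
    Bf (fun p => f (n - p.1, n - p.2)) (fun p => g (n - p.1, n - p.2)) a b c d =
      Bf f g (n - b) (n - a) (n - d) (n - c) :=
  sum_nbij' (fun p => (n - p.1 - 1, n - p.2 - 1)) (fun p => (n - p.1 - 1, n - p.2 - 1))
    (fun p hp => by simp only [mem_rc] at *; omega)
    (fun p hp => by simp only [mem_rc] at *; omega) (fun p _ => by ext <;> simp only <;> ring)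
    (fun p _ => by ext <;> simp only <;> ring) fun p _ => by
      rw [F2_eq _ _ p.1 p.2, F2_eq]
      simp only [sub_add_cancel, ← sub_sub]
      ring

theorem cornU {n l : ℕ} (hl : 100 ≤ l) (hn : 2 * l ≤ n) {A : ℤ} (hA : A = 0 ∨ A = n - l)
    {g : P → ℝ} (hg : ∀ x y : ℤ, A ≤ x → x ≤ A + l → A ≤ y → y ≤ A + l → (x, y) ∈ ring n →
      g (x, y) = 0) :
    Bf (uu n) g A (A + l) A (A + l) ^ 2 ≤ 80000 * Bf g g A (A + l) A (A + l) := by
  have k0 : 0 < l / 4 := by omega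
  have s : ∀ a b : ℤ, b - a ≤ 5 * (l / 4 : ℕ) → ((b - a : ℤ) : ℝ) ≤ 5 * (l / 4 : ℕ) :=
    fun a b e => by
      generalize l / 4 = k at *
      exact_mod_cast e
  have en : ∀ a b c d : ℤ, 0 ≤ a → a ≤ b → b ≤ n → 0 ≤ c → c ≤ d → d ≤ n → b - a ≤ l → d - c ≤ l →
      ((l / 4 : ℕ) + 1 ≤ a ∧ d + (l / 4 : ℕ) + 1 ≤ n) ∨
        ((l / 4 : ℕ) + 1 ≤ c ∧ b + (l / 4 : ℕ) + 1 ≤ n) → Bf (uu n) (uu n) a b c d ≤ 196 :=
    fun a b c d h1 h2 h3 h4 h5 h6 h7 h8 h9 => (enU n k0 h1 h2 h3 h4 h5 h6 (s _ _ (by omega))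
      (s _ _ (by omega)) h9).trans (by norm_num)
  rcases hA with rfl | rfl
  · rw [zero_add] at *
    exact corn hl (fun x y _ _ _ _ => uu_har n (by omega) (by omega) (by omega) (by omega))
      (by apply en <;> omega) (by apply en <;> omega)
      (fun x a b => hg _ _ a b le_rfl (by omega) (mem_ring.2 (by dsimp only; omega)))
      fun x a b => hg _ _ le_rfl (by omega) a b (mem_ring.2 (by dsimp only; omega))
  · have h := corn (f := fun p => uu n (n - p.1, n - p.2)) (g := fun p => g (n - p.1, n - p.2)) hl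
      (fun x y _ _ _ _ => by
        have := uu_har n (x := n - x) (y := n - y) (by omega) (by omega) (by omega) (by omega)
        simp only [Har, ← sub_sub, ← sub_add] at *
        linarith)
      (by rw [Bf_rot]; apply en <;> omega) (by rw [Bf_rot]; apply en <;> omega)
      (fun x a b => hg _ _ (by omega) (by omega) (by omega) (by omega)
        (by rw [mem_ring]; simp only; omega))
      fun x a b => hg _ _ (by omega) (by omega) (by omega) (by omega)
        (by rw [mem_ring]; simp only; omega)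
    rw [Bf_rot, Bf_rot, sub_zero] at h
    rwa [sub_add_cancel]

theorem cplx (u : P → ℝ) (v : Fld) (S : Finset P) :
    ‖∑ x ∈ S, ∑ d, (dg u x d : ℝ) * dg v x d‖ ^ 2 =
      (∑ x ∈ S, F2 u (fun p => (v p).re) x) ^ 2 + (∑ x ∈ S, F2 u (fun p => (v p).im) x) ^ 2 := by
  rw [Complex.sq_norm, Complex.normSq_apply]
  simp [F2, dg, sq]

theorem n1_eq (v : Fld) (x : P) : n1 v x = 1 / 2 * (F2 (fun p => (v p).re) (fun p => (v p).re) x +
    F2 (fun p => (v p).im) (fun p => (v p).im) x) := by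
  simp only [n1, Complex.sq_norm, Complex.normSq_apply, F2, dg, Complex.sub_re, Complex.sub_im,
    sum_add_distrib]

theorem dir0 {n : ℕ} {θ : P → ℝ} (h : Dir n θ) (x y : ℤ) (e : x = 0 ∨ x = n ∨ y = 0 ∨ y = n) :
    θ (x, y) = 0 := by
  rcases e with rfl | rfl | rfl | rfl
  · have := (h (0, y)).1
    simp only [neg_zero] at this
    linarith
  · have a := (h (n, y)).1
    have b := (h (-n, y)).2.2.1
    simp only [show -(n : ℤ) + 2 * n = n by ring] at a b
    linarith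
  · have := (h (x, 0)).2.1
    simp only [neg_zero] at this
    linarith
  · have a := (h (x, n)).2.1
    have b := (h (x, -n)).2.2.2
    simp only [show -(n : ℤ) + 2 * n = n by ring] at a b
    linarith

end U

open U in
theorem t_u : S_u := by
  refine ⟨500000, fun n hn => ⟨isU n, uu_01 n, fun θ h => ?_, ?_, ?_, ?_, fun l m e hl hm => ⟨?_, ?_⟩⟩⟩
  · exact orth (a := 0) (b := n) (c := 0) (d := n) (fun x y => uu_har n)
      fun x y _ _ _ _ e => dir0 h x y e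
  · rw [Rt_eq]
    linarith [lower n (by omega), Real.log_natCast_nonneg n]
  · rw [Rt_eq]
    linarith [upper n, Real.log_natCast_nonneg n]
  · rw [Rt_eq, Rt_eq]
    linarith [dbl n]
  · have en : (n : ℤ) = m * l := by rw [e]; push_cast; ring
    have mo : ∀ a b : ℤ, a + 1 ≤ b → a * l + l ≤ b * l := fun a b h => by
      have := mul_le_mul_of_nonneg_right h (Int.natCast_nonneg l)
      linarith
    rintro c (rfl | rfl)
    · obtain ⟨w, h1, h2, h3⟩ := exW0 n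
      refine ⟨w, h1, fun p hp => h2 _ _ (mem_sqr.1 hp).1.2 (mem_sqr.1 hp).2.1, fun B hB h => ?_⟩
      rw [if_pos rfl] at h
      have hB' : (0 ≤ B.1 ∧ B.1 < m) ∧ 0 ≤ B.2 ∧ B.2 < m := mem_rc.1 hB
      have a1 := mo 0 B.1 (by omega)
      have a2 := mo B.1 m (by omega)
      have a3 := mo (-1) B.2 (by omega)
      have a4 := mo (B.2 + 1) m (by omega)
      rw [add_mul] at a4
      refine ⟨locN hl h1 B fun x y _ _ _ _ => h3 x y (by omega) (by omega) (by omega) (by omega),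
        fun p hp hr => ?_⟩
      rw [mem_nb] at hp
      rw [mem_ring] at hr
      rw [show w p = _ from h2 p.1 p.2 hr.1.1.2 hr.1.2.1, uu_zero n (by omega), sub_zero]
    · obtain ⟨w, h1, h2, h3⟩ := exW1 n
      refine ⟨w, h1, fun p hp => h2 _ _ (mem_sqr.1 hp).1.1 (mem_sqr.1 hp).2.2, fun B hB h => ?_⟩
      rw [if_neg one_ne_zero] at h
      have hB' : (0 ≤ B.1 ∧ B.1 < m) ∧ 0 ≤ B.2 ∧ B.2 < m := mem_rc.1 hB
      have a1 := mo 0 B.2 (by omega)
      have a2 := mo B.2 m (by omega)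
      have a3 := mo (-1) B.1 (by omega)
      have a4 := mo (B.1 + 1) m (by omega)
      rw [add_mul] at a4
      refine ⟨locN hl h1 B fun x y _ _ _ _ => h3 x y (by omega) (by omega) (by omega) (by omega),
        fun p hp hr => ?_⟩
      rw [mem_nb] at hp
      rw [mem_ring] at hr
      rw [show w p = _ from h2 p.1 p.2 hr.1.1.1 hr.1.2.2, uu_one n (by omega), sub_self]
  · intro B hB v hv
    have h2 : 2 * l ≤ n := by rw [e, mul_comm]; exact Nat.mul_le_mul_left _ hm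
    obtain ⟨A, hA, e1, e2⟩ : ∃ A : ℤ, (A = 0 ∨ A = n - l) ∧ B.1 * l = A ∧ B.2 * l = A := by
      rcases hB with rfl | rfl
      · exact ⟨0, Or.inl rfl, zero_mul _, zero_mul _⟩
      · refine ⟨_, Or.inr rfl, ?_, ?_⟩ <;> rw [e] <;> push_cast <;> ring
    have ec : cell l B = rc A (A + l) A (A + l) := by
      simp only [cell, rc, add_mul, one_mul, e1, e2]
    have hv' : ∀ x y : ℤ, A ≤ x → x ≤ A + l → A ≤ y → y ≤ A + l → (x, y) ∈ ring n →
        v (x, y) = 0 := fun x y a b c d => hv _ (by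
      simp only [fat, mem_product, mem_Icc, add_mul, one_mul, e1, e2]
      omega)
    have b1 := cornU hl h2 hA (g := fun p => (v p).re) fun x y a b c d e => by
      simp [hv' x y a b c d e]
    have b2 := cornU hl h2 hA (g := fun p => (v p).im) fun x y a b c d e => by
      simp [hv' x y a b c d e]
    have b3 := Bf_nn (fun p => (v p).re) A (A + l) A (A + l)
    have b4 := Bf_nn (fun p => (v p).im) A (A + l) A (A + l)
    rw [cplx, ec]
    simp only [n1_eq, ← mul_sum, sum_add_distrib]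
    unfold Bf at b1 b2 b3 b4
    linarith

end Pool.Agent.Lib.MP_9cc147_pr.Cx
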