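import Pool.Agent.Lib.MP_9cc147_pr.Cx.D1

/-! Discrete harmonic functions: summation by parts, Caccioppoli, maximum principle. -/

open scoped Classical
open Finset

noncomputable section
namespace Pool.Agent.Lib.MP_9cc147_pr.Cx.U

def F2 (f g : P → ℝ) (x : P) : ℝ := ∑ d, dg f x d * dg g x d
def rc (a b c d : ℤ) : Finset P := Ico a b ×ˢ Ico c d
def Bf (f g : P → ℝ) (a b c d : ℤ) : ℝ := ∑ x ∈ rc a b c d, F2 f g x
def Har (f : P → ℝ) (x y : ℤ) : Prop :=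
  f (x + 1, y) + f (x, y + 1) + f (x - 1, y) + f (x, y - 1) = 4 * f (x, y)

theorem F2_eq (f g : P → ℝ) (x y : ℤ) : F2 f g (x, y) =
    (f (x + 1, y + 1) - f (x + 1, y)) * (g (x + 1, y + 1) - g (x + 1, y)) +
    (f (x, y + 1) - f (x + 1, y + 1)) * (g (x, y + 1) - g (x + 1, y + 1)) +
    (f (x, y) - f (x, y + 1)) * (g (x, y) - g (x, y + 1)) +
    (f (x + 1, y) - f (x, y)) * (g (x + 1, y) - g (x, y)) := by
  simp [F2, dg, crn, Fin.sum_univ_four]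

theorem F2_nn (f : P → ℝ) (x : P) : 0 ≤ F2 f f x := sum_nonneg fun _ _ => mul_self_nonneg _

theorem mem_rc {a b c d : ℤ} {p : P} :
    p ∈ rc a b c d ↔ (a ≤ p.1 ∧ p.1 < b) ∧ c ≤ p.2 ∧ p.2 < d := by
  simp [rc]

theorem Bf_nn (f : P → ℝ) (a b c d : ℤ) : 0 ≤ Bf f f a b c d := sum_nonneg fun _ _ => F2_nn _ _

theorem Bf_mono (f : P → ℝ) {a b c d a' b' c' d' : ℤ} (h1 : a' ≤ a) (h2 : b ≤ b') (h3 : c' ≤ c)
    (h4 : d ≤ d') : Bf f f a b c d ≤ Bf f f a' b' c' d' :=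
  sum_le_sum_of_subset_of_nonneg (fun p hp => by rw [mem_rc] at *; omega) fun _ _ _ => F2_nn _ _

theorem lap_iff (f : P → ℝ) (x y : ℤ) : Lap f (x, y) = 0 ↔ Har f x y := by
  simp only [Lap, Har, LinearMap.coe_mk, AddHom.coe_mk, Fin.sum_univ_four, dir]
  simp only [Matrix.cons_val, Prod.mk_add_mk, add_zero, ← sub_eq_add_neg]
  constructor <;> intro h <;> linarith

theorem card_rc (a b c d : ℤ) (h1 : a ≤ b) (h2 : c ≤ d) :
    ((rc a b c d).card : ℝ) = (b - a : ℤ) * (d - c : ℤ) := by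
  rw [rc, card_product, Int.card_Ico, Int.card_Ico, Nat.cast_mul]
  rw [← Int.cast_natCast, ← Int.cast_natCast (d - c).toNat, Int.toNat_of_nonneg (by omega),
    Int.toNat_of_nonneg (by omega)]

theorem shift {g : P → ℝ} {a b c d : ℤ}
    (hg : ∀ x y, a ≤ x → x ≤ b → c ≤ y → y ≤ d → x = a ∨ x = b ∨ y = c ∨ y = d → g (x, y) = 0)
    (G : ℤ → ℤ → ℝ) (i j : ℤ) (hi : i = 0 ∨ i = 1) (hj : j = 0 ∨ j = 1) :
    ∑ p ∈ rc a b c d, G (p.1 + i) (p.2 + j) * g (p.1 + i, p.2 + j) =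
      ∑ p ∈ rc (a + 1) b (c + 1) d, G p.1 p.2 * g p := by
  refine (sum_of_injOn (fun p : P => (p.1 - i, p.2 - j)) ?_ ?_ ?_ ?_).symm
  · intro p _ q _ h
    simp only [Prod.mk.injEq] at h
    exact Prod.ext (by omega) (by omega)
  · intro p hp
    simp only [mem_coe, mem_rc] at *
    omega
  · intro p hp h
    rw [mem_rc] at hp
    rw [hg _ _ (by omega) (by omega) (by omega) (by omega) ?_, mul_zero]
    by_contra hn
    exact h ⟨(p.1 + i, p.2 + j), by simp only [mem_coe, mem_rc]; omega, by simp⟩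
  · intro p _
    simp

theorem orth {f g : P → ℝ} {a b c d : ℤ}
    (hf : ∀ x y, a < x → x < b → c < y → y < d → Har f x y)
    (hg : ∀ x y, a ≤ x → x ≤ b → c ≤ y → y ≤ d → x = a ∨ x = b ∨ y = c ∨ y = d → g (x, y) = 0) :
    Bf f g a b c d = 0 := by
  have s1 := shift hg (fun x y => 2 * f (x, y) - f (x, y - 1) - f (x - 1, y)) 1 1 (by simp) (by simp)
  have s2 := shift hg (fun x y => 2 * f (x, y) - f (x, y + 1) - f (x - 1, y)) 1 0 (by simp) (by simp)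
  have s3 := shift hg (fun x y => 2 * f (x, y) - f (x, y - 1) - f (x + 1, y)) 0 1 (by simp) (by simp)
  have s4 := shift hg (fun x y => 2 * f (x, y) - f (x, y + 1) - f (x + 1, y)) 0 0 (by simp) (by simp)
  simp only [add_zero, add_sub_cancel_right] at s1 s2 s3 s4
  have e := congrArg₂ (· + ·) (congrArg₂ (· + ·) s1 s2) (congrArg₂ (· + ·) s3 s4)
  simp only [← sum_add_distrib] at e
  refine Eq.trans (sum_congr rfl fun p _ => ?_) (e.trans (sum_eq_zero fun p hp => ?_))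
  · rw [F2_eq f g p.1 p.2]
    ring
  rw [mem_rc] at hp
  have := hf p.1 p.2 (by omega) (by omega) (by omega) (by omega)
  rw [Har] at this
  linear_combination (-2 * g p) * this

/-- a ramp: 0 up to 0, 1 from `k` on -/
def rmp (k : ℕ) (x : ℤ) : ℝ := max 0 (min 1 (x / k))

theorem rmp_0 (k : ℕ) (x : ℤ) : 0 ≤ rmp k x := le_max_left _ _
theorem rmp_1 (k : ℕ) (x : ℤ) : rmp k x ≤ 1 := max_le zero_le_one (min_le_left _ _)
theorem rmp_lo (k : ℕ) {x : ℤ} (h : x ≤ 0) : rmp k x = 0 :=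
  max_eq_left ((min_le_right _ _).trans (div_nonpos_of_nonpos_of_nonneg (by exact_mod_cast h)
    (Nat.cast_nonneg _)))
theorem rmp_hi {k : ℕ} (hk : 0 < k) {x : ℤ} (h : (k : ℤ) ≤ x) : rmp k x = 1 := by
  rw [rmp, min_eq_left, max_eq_right zero_le_one]
  rw [le_div_iff₀ (by exact_mod_cast hk), one_mul]
  exact_mod_cast h
theorem rmp_lip (k : ℕ) {x y : ℤ} (h : |x - y| ≤ 1) : |rmp k x - rmp k y| ≤ 1 / k := by
  refine (abs_max_sub_max_le_max _ _ _ _).trans ?_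
  rw [sub_self, abs_zero]
  refine max_le (by positivity) ((abs_min_sub_min_le_max _ _ _ _).trans ?_)
  rw [sub_self, abs_zero]
  refine max_le (by positivity) ?_
  rw [← sub_div, abs_div, Nat.abs_cast]
  gcongr
  exact_mod_cast h

/-- the sum of the squares at the corners of a face -/
def Q4 (f : P → ℝ) (p : P) : ℝ :=
  f (p.1, p.2) ^ 2 + f (p.1 + 1, p.2) ^ 2 + f (p.1, p.2 + 1) ^ 2 + f (p.1 + 1, p.2 + 1) ^ 2

/-- slope at most `s` -/
def Lip (s : ℝ) (χ : P → ℝ) : Prop :=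
  ∀ x y, |χ (x + 1, y) - χ (x, y)| ≤ s ∧ |χ (x, y + 1) - χ (x, y)| ≤ s

theorem lip_prod {s : ℝ} {φ ψ : ℤ → ℝ} (h1 : ∀ x, |φ x| ≤ 1) (h2 : ∀ x, |ψ x| ≤ 1)
    (h3 : ∀ x, |φ (x + 1) - φ x| ≤ s) (h4 : ∀ x, |ψ (x + 1) - ψ x| ≤ s) :
    Lip s fun p => φ p.1 * ψ p.2 := fun x y => by
  constructor
  · simp only [← sub_mul, abs_mul]
    exact (mul_le_of_le_one_right (abs_nonneg _) (h2 _)).trans (h3 _)
  · simp only [← mul_sub, abs_mul]
    exact (mul_le_of_le_one_left (abs_nonneg _) (h1 _)).trans (h4 _)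

theorem edge_c {s u v a b : ℝ} (h : |a - b| ≤ s) :
    (a * u - b * v) * (a * u - b * v) ≤
      (u - v) * (a ^ 2 * u - b ^ 2 * v) + s ^ 2 * ((u ^ 2 + v ^ 2) / 2) := by
  have h1 : (a - b) ^ 2 ≤ s ^ 2 := sq_le_sq' (abs_le.1 h).1 (abs_le.1 h).2
  nlinarith [mul_nonneg (sq_nonneg (a - b)) (sq_nonneg (u - v)),
    mul_nonneg (sub_nonneg.2 h1) (add_nonneg (sq_nonneg u) (sq_nonneg v))]

theorem face_c {s : ℝ} {χ : P → ℝ} (h : Lip s χ) (f : P → ℝ) (p : P) :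
    F2 (fun p => χ p * f p) (fun p => χ p * f p) p ≤
      F2 f (fun p => χ p ^ 2 * f p) p + s ^ 2 * Q4 f p := by
  obtain ⟨x, y⟩ := p
  simp only [F2_eq, Q4]
  have e1 := edge_c (u := f (x + 1, y + 1)) (v := f (x + 1, y)) (h (x + 1) y).2
  have e2 := edge_c (u := f (x, y + 1)) (v := f (x + 1, y + 1))
    ((abs_sub_comm _ _).trans_le (h x (y + 1)).1)
  have e3 := edge_c (u := f (x, y)) (v := f (x, y + 1)) ((abs_sub_comm _ _).trans_le (h x y).2)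
  have e4 := edge_c (u := f (x + 1, y)) (v := f (x, y)) (h x y).1
  linarith

/-- the inequality of Caccioppoli -/
theorem cacc {f : P → ℝ} {a b c d : ℤ} {k : ℕ} (hk : 0 < k)
    (hf : ∀ x y, a - k < x → x < b + k → c - k < y → y < d + k → Har f x y) :
    Bf f f a b c d ≤ (1 / k) ^ 2 * ∑ p ∈ rc (a - k) (b + k) (c - k) (d + k), Q4 f p := by
  let φ : ℤ → ℤ → ℤ → ℝ := fun a b x => rmp k (min (x - (a - k)) (b + k - x))
  have p1 : ∀ a b x, |φ a b x| ≤ 1 := fun a b x => abs_le.2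
    ⟨by linarith [rmp_0 k (min (x - (a - k)) (b + k - x))], rmp_1 _ _⟩
  have p2 : ∀ a b x, |φ a b (x + 1) - φ a b x| ≤ 1 / k := fun a b x =>
    rmp_lip k (by rw [abs_le]; omega)
  have hl := lip_prod (p1 a b) (p1 c d) (p2 a b) (p2 c d)
  have h0 := orth (g := fun p => (φ a b p.1 * φ c d p.2) ^ 2 * f p) hf (fun x y _ _ _ _ h => by
    have : φ a b x = 0 ∨ φ c d y = 0 := by
      rcases h with h | h | h | h
      exacts [Or.inl (rmp_lo _ (by omega)), Or.inl (rmp_lo _ (by omega)),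
        Or.inr (rmp_lo _ (by omega)), Or.inr (rmp_lo _ (by omega))]
    rcases this with h | h <;> simp [h])
  have h1 := sum_le_sum fun p (_ : p ∈ rc (a - k) (b + k) (c - k) (d + k)) => face_c hl f p
  rw [sum_add_distrib, ← mul_sum] at h1
  rw [Bf] at h0
  rw [h0, zero_add] at h1
  refine le_trans ?_ h1
  refine le_trans (le_of_eq ?_) (Bf_mono (fun p => (φ a b p.1 * φ c d p.2) * f p)
    (a := a) (b := b) (c := c) (d := d) (by omega) (by omega) (by omega) (by omega))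
  refine sum_congr rfl fun p hp => ?_
  rw [mem_rc] at hp
  have q1 : φ a b p.1 = 1 := rmp_hi hk (by omega)
  have q2 : φ a b (p.1 + 1) = 1 := rmp_hi hk (by omega)
  have q3 : φ c d p.2 = 1 := rmp_hi hk (by omega)
  have q4 : φ c d (p.2 + 1) = 1 := rmp_hi hk (by omega)
  rw [F2_eq f f p.1 p.2, F2_eq _ _ p.1 p.2]
  simp only [q1, q2, q3, q4, one_mul]

theorem cacc1 {f : P → ℝ} {a b c d : ℤ} {k : ℕ} (hk : 0 < k) (h1 : ∀ p, |f p| ≤ 1) {s : ℝ}
    (hab : a ≤ b) (hcd : c ≤ d) (s1 : ((b - a : ℤ) : ℝ) ≤ s * k) (s2 : ((d - c : ℤ) : ℝ) ≤ s * k)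
    (hf : ∀ x y, a - k < x → x < b + k → c - k < y → y < d + k → Har f x y) :
    Bf f f a b c d ≤ 4 * (s + 2) ^ 2 := by
  refine (cacc hk hf).trans ?_
  have q : ∀ p, f p ^ 2 ≤ 1 := fun p => by simpa using h1 p
  have h2 : ∑ p ∈ rc (a - k) (b + k) (c - k) (d + k), Q4 f p ≤
      (rc (a - k) (b + k) (c - k) (d + k)).card • (4 : ℝ) :=
    sum_le_card_nsmul _ _ _ fun p _ => by
      unfold Q4
      linarith [q (p.1, p.2), q (p.1 + 1, p.2), q (p.1, p.2 + 1), q (p.1 + 1, p.2 + 1)]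
  rw [nsmul_eq_mul, card_rc _ _ _ _ (by omega) (by omega)] at h2
  have k0 : (0 : ℝ) < k := by exact_mod_cast hk
  have b1 : (0 : ℝ) ≤ (b - a : ℤ) := by exact_mod_cast sub_nonneg.2 hab
  have b2 : (0 : ℝ) ≤ (d - c : ℤ) := by exact_mod_cast sub_nonneg.2 hcd
  push_cast at *
  have h3 : (b + k - (a - k) : ℝ) * (d + k - (c - k)) ≤ ((s + 2) * k) * ((s + 2) * k) :=
    mul_le_mul (by linarith) (by linarith) (by linarith) (by linarith)
  calc _ ≤ (1 / k : ℝ) ^ 2 * (((s + 2) * k) * ((s + 2) * k) * 4) := by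
        gcongr
        linarith
    _ = _ := by field_simp

theorem mem_sqr {n : ℕ} {p : P} : p ∈ sqr n ↔ (0 ≤ p.1 ∧ p.1 ≤ n) ∧ 0 ≤ p.2 ∧ p.2 ≤ n := by
  simp [sqr]
theorem mem_inn {n : ℕ} {p : P} : p ∈ inn n ↔ (0 < p.1 ∧ p.1 < n) ∧ 0 < p.2 ∧ p.2 < n := by
  simp [inn]
theorem mem_ring {n : ℕ} {p : P} : p ∈ ring n ↔ ((0 ≤ p.1 ∧ p.1 ≤ n) ∧ 0 ≤ p.2 ∧ p.2 ≤ n) ∧
    (p.1 = 0 ∨ p.1 = n ∨ p.2 = 0 ∨ p.2 = n) := by
  rw [ring, mem_sdiff, mem_sqr, mem_inn]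
  omega

theorem maxp {n : ℕ} {f : P → ℝ} {M : ℝ} (hf : ∀ p ∈ inn n, Lap f p = 0)
    (hM : ∀ p ∈ ring n, f p ≤ M) : ∀ p ∈ sqr n, f p ≤ M := fun p hp => by
  obtain ⟨q, hq, h1⟩ := exists_max_image (sqr n) f ⟨p, hp⟩
  obtain ⟨⟨x, y⟩, hr, h2⟩ := exists_max_image ((sqr n).filter fun r => f r = f q) Prod.fst
    ⟨q, by simp [hq]⟩
  rw [mem_filter] at hr
  by_cases hi : (x, y) ∈ inn n
  · have h3 := (lap_iff f x y).1 (hf _ hi)
    rw [mem_inn] at hi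
    simp only at hi
    have a1 := h1 (x + 1, y) (by rw [mem_sqr]; simp only; omega)
    have a2 := h1 (x, y + 1) (by rw [mem_sqr]; simp only; omega)
    have a3 := h1 (x - 1, y) (by rw [mem_sqr]; simp only; omega)
    have a4 := h1 (x, y - 1) (by rw [mem_sqr]; simp only; omega)
    rw [Har, hr.2] at h3
    have := h2 (x + 1, y) (mem_filter.2 ⟨by rw [mem_sqr]; simp only; omega, by linarith⟩)
    simp only at this
    omega
  · exact (h1 p hp).trans (hr.2 ▸ hM _ (mem_sdiff.2 ⟨hr.1, hi⟩))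

theorem exU (n : ℕ) : ∃ u, IsU n u := by
  let e : (inn n → ℝ) →ₗ[ℝ] (P → ℝ) :=
    { toFun := fun g p => if h : p ∈ inn n then g ⟨p, h⟩ else 0
      map_add' := fun g g' => by ext p; by_cases h : p ∈ inn n <;> simp [h]
      map_smul' := fun c g => by ext p; by_cases h : p ∈ inn n <;> simp [h] }
  have e0 : ∀ g p, p ∉ inn n → e g p = 0 := fun g p h => dif_neg h
  let T : (inn n → ℝ) →ₗ[ℝ] (inn n → ℝ) :=
    (LinearMap.funLeft ℝ ℝ Subtype.val).comp (Lap.comp e)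
  have hT : Function.Injective T := (injective_iff_map_eq_zero T).2 fun g hg => by
    have h1 : ∀ p ∈ inn n, Lap (e g) p = 0 := fun p hp => congrFun hg ⟨p, hp⟩
    ext ⟨p, hp⟩
    have hs : p ∈ sqr n := by rw [mem_sqr]; rw [mem_inn] at hp; omega
    have a1 := maxp (M := 0) h1 (fun p hp => (e0 g p (mem_sdiff.1 hp).2).le) p hs
    have a2 := maxp (f := -e g) (M := 0) (fun p hp => by rw [map_neg, Pi.neg_apply, h1 p hp, neg_zero])
      (fun p hp => by rw [Pi.neg_apply, e0 g p (mem_sdiff.1 hp).2, neg_zero]) p hs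
    have a3 : e g p = g ⟨p, hp⟩ := dif_pos hp
    rw [Pi.neg_apply] at a2
    rw [Pi.zero_apply]
    linarith
  let b : P → ℝ := fun p => if p ∈ ring n then uB n p else 0
  obtain ⟨g, hg⟩ := LinearMap.injective_iff_surjective.1 hT fun p => -Lap b p
  refine ⟨e g + b, fun p hp => ?_, fun p hp => ?_, fun p hp => ?_⟩
  · rw [Pi.add_apply, e0 g p (mem_sdiff.1 hp).2, zero_add]
    exact if_pos hp
  · have : Lap (e g) p = -Lap b p := congrFun hg ⟨p, hp⟩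
    rw [map_add, Pi.add_apply, this, neg_add_cancel]
  · rw [Pi.add_apply, e0 g p fun h => hp (by rw [mem_sqr]; rw [mem_inn] at h; omega), zero_add]
    exact if_neg fun h => hp (mem_sdiff.1 h).1

theorem isU (n : ℕ) : IsU n (uu n) := by
  rw [uu, dif_pos (exU n)]
  exact (exU n).choose_spec

theorem uu_01 (n : ℕ) (p : P) : 0 ≤ uu n p ∧ uu n p ≤ 1 := by
  obtain ⟨h1, h2, h3⟩ := isU n
  by_cases hp : p ∈ sqr n
  · have a2 := maxp (f := -uu n) (M := 0)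
      (fun p hp => by rw [map_neg, Pi.neg_apply, h2 p hp, neg_zero])
      (fun p hp => by rw [Pi.neg_apply, h1 p hp, uB]; split_ifs <;> norm_num) p hp
    exact ⟨by simpa using a2, maxp h2
      (fun p hp => by rw [h1 p hp, uB]; split_ifs <;> norm_num) p hp⟩
  · rw [h3 p hp]
    norm_num

theorem uu_har (n : ℕ) {x y : ℤ} (h1 : 0 < x) (h2 : x < n) (h3 : 0 < y) (h4 : y < n) :
    Har (uu n) x y := (lap_iff _ _ _).1 ((isU n).2.1 _ (mem_inn.2 ⟨⟨h1, h2⟩, h3, h4⟩))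

theorem uu_one (n : ℕ) {x y : ℤ}
    (h : (x = 0 ∧ 0 < y ∧ y ≤ n) ∨ (y = n ∧ 0 ≤ x ∧ x < n)) : uu n (x, y) = 1 := by
  rw [(isU n).1 _ (by rw [mem_ring]; simp only; omega), uB, if_pos (by simp only; omega)]

theorem uu_zero (n : ℕ) {x y : ℤ}
    (h : (y = 0 ∧ 0 ≤ x ∧ x ≤ n ∧ 0 < n) ∨ (x = n ∧ 0 ≤ y ∧ y ≤ n ∧ 0 < n)) : uu n (x, y) = 0 := by
  rw [(isU n).1 _ (by rw [mem_ring]; simp only; omega), uB, if_neg (by simp only; omega)]

end Pool.Agent.Lib.MP_9cc147_pr.Cx.U
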