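import Pool.Agent.Lib.MP_9cc147_pr.Cx.U.A

/-! Odd reflection and local estimates of the harmonic background. -/

open scoped Classical
open Finset

noncomputable section
namespace Pool.Agent.Lib.MP_9cc147_pr.Cx.U

theorem refY {f : P → ℝ} {x y n : ℤ} (hf : ∀ y, 0 < y → y < n → Har f x y)
    (z0 : f (x - 1, 0) = 0) (z1 : f (x, 0) = 0) (z2 : f (x + 1, 0) = 0) (h1 : -n < y)
    (h2 : y < n) : Har (fun p => if 0 ≤ p.2 then f p else -f (p.1, -p.2)) x y := by
  rcases lt_trichotomy y 0 with h | rfl | h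
  · have := hf (-y) (by omega) (by omega)
    have e : (if 0 ≤ y + 1 then f (x, y + 1) else -f (x, -(y + 1))) = -f (x, -y - 1) := by
      split_ifs with h'
      · rw [show y + 1 = 0 by omega, show -y - 1 = 0 by omega, z1, neg_zero]
      · rw [neg_add']
    simp only [Har] at *
    rw [e, if_neg (by omega), if_neg (by omega), if_neg (by omega), if_neg (by omega),
      show -(y - 1) = -y + 1 by ring]
    linarith
  · simp [Har, z0, z1, z2]
  · have := hf y h h2
    simp only [Har] at *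
    rw [if_pos (by omega), if_pos (by omega), if_pos (by omega), if_pos (by omega),
      if_pos (by omega), this]

theorem refX {f : P → ℝ} {x y n a : ℤ} (hf : ∀ x, a < x → x < n → Har f x y)
    (z0 : f (n, y - 1) = 0) (z1 : f (n, y) = 0) (z2 : f (n, y + 1) = 0) (h1 : a < x)
    (h2 : x < 2 * n - a) :
    Har (fun p => if p.1 ≤ n then f p else -f (2 * n - p.1, p.2)) x y := by
  rcases lt_trichotomy n x with h | rfl | h
  · have := hf (2 * n - x) (by omega) (by omega)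
    have e : (if x - 1 ≤ n then f (x - 1, y) else -f (2 * n - (x - 1), y)) =
        -f (2 * n - x + 1, y) := by
      split_ifs with h'
      · rw [show x - 1 = n by omega, show 2 * n - x + 1 = n by omega, z1, neg_zero]
      · rw [show 2 * n - (x - 1) = 2 * n - x + 1 by ring]
    simp only [Har] at *
    rw [e, if_neg (by omega), if_neg (by omega), if_neg (by omega), if_neg (by omega),
      show 2 * n - (x + 1) = 2 * n - x - 1 by ring]
    linarith
  · simp [Har, z0, z1, z2, show 2 * n - (n + 1) = n - 1 by ring]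
  · have := hf x h1 h
    simp only [Har] at *
    rw [if_pos (by omega), if_pos (by omega), if_pos (by omega), if_pos (by omega),
      if_pos (by omega), this]

theorem refl {f : P → ℝ} {n : ℤ} (h1 : ∀ p, |f p| ≤ 1)
    (hf : ∀ x y, 0 < x → x < n → 0 < y → y < n → Har f x y)
    (z0 : ∀ x, 0 < x → x ≤ n → f (x, 0) = 0) (z1 : ∀ y, 0 ≤ y → y < n → f (n, y) = 0) :
    ∃ w : P → ℝ, (∀ p, |w p| ≤ 1) ∧ (∀ x y, x ≤ n → 0 ≤ y → w (x, y) = f (x, y)) ∧
      ∀ x y, 1 < x → x < 2 * n - 1 → -(n - 1) < y → y < n - 1 → Har w x y := by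
  let g : P → ℝ := fun p => if 0 ≤ p.2 then f p else -f (p.1, -p.2)
  have g1 : ∀ p, |g p| ≤ 1 := fun p => by
    simp only [g]
    split_ifs
    exacts [h1 _, by rw [abs_neg]; exact h1 _]
  have g0 : ∀ y, -n < y → y < n → g (n, y) = 0 := fun y a b => by
    simp only [g]
    split_ifs
    exacts [z1 _ (by omega) b, by rw [z1 _ (by omega) (by omega), neg_zero]]
  refine ⟨fun p => if p.1 ≤ n then g p else -g (2 * n - p.1, p.2), fun p => ?_,
    fun x y a b => by simp [g, a, b], fun x y a b c d => ?_⟩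
  · simp only
    split_ifs
    exacts [g1 _, by rw [abs_neg]; exact g1 _]
  · exact refX (a := 1) (fun x a b => refY (n := n) (fun y => hf x y (by omega) b)
      (z0 _ (by omega) (by omega)) (z0 _ (by omega) (by omega)) (z0 _ (by omega) (by omega))
      (by omega) (by omega)) (g0 _ (by omega) (by omega)) (g0 _ (by omega) (by omega))
      (g0 _ (by omega) (by omega)) a b

theorem exW0 (n : ℕ) : ∃ w : P → ℝ, (∀ p, |w p| ≤ 1) ∧
    (∀ x y : ℤ, x ≤ n → 0 ≤ y → w (x, y) = uu n (x, y) - 0) ∧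
    ∀ x y : ℤ, 1 < x → x < 2 * n - 1 → -(n - 1) < y → y < n - 1 → Har w x y := by
  simp only [sub_zero]
  exact refl (fun p => abs_le.2 ⟨by linarith [(uu_01 n p).1], (uu_01 n p).2⟩)
    (fun x y => uu_har n) (fun x a b => uu_zero n (by omega)) fun y a b => uu_zero n (by omega)

theorem exW1 (n : ℕ) : ∃ w : P → ℝ, (∀ p, |w p| ≤ 1) ∧
    (∀ x y : ℤ, 0 ≤ x → y ≤ n → w (x, y) = uu n (x, y) - 1) ∧
    ∀ x y : ℤ, -(n - 1) < x → x < n - 1 → 1 < y → y < 2 * n - 1 → Har w x y := by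
  obtain ⟨w, h1, h2, h3⟩ := refl (n := n) (f := fun p => uu n (p.2, p.1) - 1)
    (fun p => abs_le.2 ⟨by linarith [(uu_01 n (p.2, p.1)).1], by linarith [(uu_01 n (p.2, p.1)).2]⟩)
    (fun x y a b c d => by
      have := uu_har n c d a b
      simp only [Har] at *
      linarith)
    (fun x a b => by rw [uu_one n (by omega), sub_self])
    fun y a b => by rw [uu_one n (by omega), sub_self]
  refine ⟨fun p => w (p.2, p.1), fun p => h1 _, fun x y a b => h2 y x b a, fun x y a b c d => ?_⟩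
  have := h3 y x c d a b
  simp only [Har] at *
  linarith

theorem Bf_congr {f g : P → ℝ} {a b c d : ℤ} (e : ℝ)
    (h : ∀ x y, a ≤ x → x ≤ b → c ≤ y → y ≤ d → g (x, y) = f (x, y) - e) :
    Bf f f a b c d = Bf g g a b c d := sum_congr rfl fun p hp => by
  rw [mem_rc] at hp
  rw [F2_eq f f p.1 p.2, F2_eq g g p.1 p.2, h _ _ (by omega) (by omega) (by omega) (by omega),
    h _ _ (by omega) (by omega) (by omega) (by omega),
    h _ _ (by omega) (by omega) (by omega) (by omega),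
    h _ _ (by omega) (by omega) (by omega) (by omega)]
  ring

/-- energy of the background away from two sides -/
theorem enU (n : ℕ) {k : ℕ} (hk : 0 < k) {a b c d : ℤ} {s : ℝ} (a0 : 0 ≤ a) (hab : a ≤ b)
    (b0 : b ≤ n) (c0 : 0 ≤ c) (hcd : c ≤ d) (d0 : d ≤ n) (s1 : ((b - a : ℤ) : ℝ) ≤ s * k)
    (s2 : ((d - c : ℤ) : ℝ) ≤ s * k)
    (h : (k + 1 ≤ a ∧ d + k + 1 ≤ n) ∨ (k + 1 ≤ c ∧ b + k + 1 ≤ n)) :
    Bf (uu n) (uu n) a b c d ≤ 4 * (s + 2) ^ 2 := by
  rcases h with h | h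
  · obtain ⟨w, h1, h2, h3⟩ := exW0 n
    rw [Bf_congr 0 fun x y _ _ _ _ => h2 x y (by omega) (by omega)]
    exact cacc1 hk h1 hab hcd s1 s2 fun x y _ _ _ _ =>
      h3 x y (by omega) (by omega) (by omega) (by omega)
  · obtain ⟨w, h1, h2, h3⟩ := exW1 n
    rw [Bf_congr 1 fun x y _ _ _ _ => h2 x y (by omega) (by omega)]
    exact cacc1 hk h1 hab hcd s1 s2 fun x y _ _ _ _ =>
      h3 x y (by omega) (by omega) (by omega) (by omega)

theorem sum_sh (G : P → ℝ) (a b c d i j : ℤ) : ∑ p ∈ rc a b c d, G (p.1 - i, p.2 - j) =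
    ∑ p ∈ rc (a - i) (b - i) (c - j) (d - j), G p :=
  sum_nbij' (fun p => (p.1 - i, p.2 - j)) (fun p => (p.1 + i, p.2 + j))
    (fun p hp => by simp only [mem_rc] at *; omega)
    (fun p hp => by simp only [mem_rc] at *; omega) (fun p _ => by simp)
    (fun p _ => by simp) fun p _ => rfl

theorem cacc2 {w : P → ℝ} {a b c d i j : ℤ} {k : ℕ} (hk : 0 < k)
    (hij : (i = 1 ∧ j = 0) ∨ (i = 0 ∧ j = 1))
    (hf : ∀ x y, a - k - 1 < x → x < b + k → c - k - 1 < y → y < d + k → Har w x y) :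
    Bf (fun p => w p - w (p.1 - i, p.2 - j)) (fun p => w p - w (p.1 - i, p.2 - j)) a b c d ≤
      (1 / k) ^ 2 * (2 * Bf w w (a - k - 1) (b + k) (c - k - 1) (d + k)) := by
  refine (cacc hk fun x y _ _ _ _ => ?_).trans (mul_le_mul_of_nonneg_left ?_ (by positivity))
  · have h1 := hf x y (by omega) (by omega) (by omega) (by omega)
    have h2 := hf (x - i) (y - j) (by omega) (by omega) (by omega) (by omega)
    simp only [Har] at *
    rw [show x + 1 - i = x - i + 1 by ring, show y + 1 - j = y - j + 1 by ring,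
      show x - 1 - i = x - i - 1 by ring, show y - 1 - j = y - j - 1 by ring]
    linarith
  · have h1 := Bf_mono w (a := a - k) (b := b + k) (c := c - k) (d := d + k) (a' := a - k - 1)
      (c' := c - k - 1) (by omega) le_rfl (by omega) le_rfl
    have h2 := Bf_mono w (a := a - k - i) (b := b + k - i) (c := c - k - j) (d := d + k - j)
      (a' := a - k - 1) (c' := c - k - 1) (b' := b + k) (d' := d + k) (by omega) (by omega)
      (by omega) (by omega)
    rw [Bf, ← sum_sh] at h2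
    rw [Bf] at h1
    refine le_trans ?_ ((add_le_add h1 h2).trans (by rw [two_mul]))
    rw [← sum_add_distrib]
    refine sum_le_sum fun p _ => ?_
    rw [F2_eq w w p.1 p.2, F2_eq]
    rcases hij with ⟨rfl, rfl⟩ | ⟨rfl, rfl⟩ <;>
      simp only [Q4, sub_zero, add_sub_cancel_right, sub_add_cancel]
    · nlinarith [mul_self_nonneg (w (p.1 + 1, p.2 + 1) - w (p.1 + 1, p.2)),
        mul_self_nonneg (w (p.1, p.2) - w (p.1, p.2 + 1)),
        mul_self_nonneg (w (p.1 - 1, p.2) - w (p.1 - 1, p.2 + 1))]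
    · nlinarith [mul_self_nonneg (w (p.1, p.2 + 1) - w (p.1 + 1, p.2 + 1)),
        mul_self_nonneg (w (p.1 + 1, p.2) - w (p.1, p.2)),
        mul_self_nonneg (w (p.1 + 1, p.2 - 1) - w (p.1, p.2 - 1))]

theorem dg_cf (w : P → ℝ) (p : P) (d : Fin 4) : dg (cf w) p d = (dg w p d : ℝ) := by
  simp [dg, cf]

theorem n1_cf (w : P → ℝ) (p : P) : n1 (cf w) p = 1 / 2 * F2 w w p := by
  simp only [n1, F2, dg_cf, Complex.norm_real, Real.norm_eq_abs, sq, abs_mul_abs_self]

theorem n2_cf (w : P → ℝ) (p : P) : n2 (cf w) p ≤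
    F2 (fun p => w p - w (p.1 - 1, p.2 - 0)) (fun p => w p - w (p.1 - 1, p.2 - 0)) p +
      F2 (fun p => w p - w (p.1 - 0, p.2 - 1)) (fun p => w p - w (p.1 - 0, p.2 - 1)) p := by
  obtain ⟨x, y⟩ := p
  have e : ∀ a b c : ℝ, ‖(a : ℂ) - 2 * b + c‖ ^ 2 = (a - 2 * b + c) ^ 2 := fun a b c => by
    rw [← sq_abs (a - 2 * b + c), ← Real.norm_eq_abs, ← Complex.norm_real]
    push_cast
    rfl
  have e' : ∀ a b c d : ℝ, ‖(a : ℂ) - b - c + d‖ ^ 2 = (a - b - c + d) ^ 2 := fun a b c d => by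
    rw [← sq_abs (a - b - c + d), ← Real.norm_eq_abs, ← Complex.norm_real]
    push_cast
    rfl
  simp only [n2, cf, e, e', F2_eq, Prod.mk_add_mk, Prod.mk_sub_mk, add_zero, sub_zero,
    add_sub_cancel_right]
  nlinarith [
    mul_self_nonneg (w (x, y + 1) - w (x - 1, y + 1) - (w (x + 1, y + 1) - w (x, y + 1))),
    mul_self_nonneg (w (x, y) - w (x - 1, y) - (w (x, y + 1) - w (x - 1, y + 1))),
    mul_self_nonneg (w (x + 1, y + 1) - w (x + 1, y) - (w (x + 1, y) - w (x + 1, y - 1))),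
    mul_self_nonneg (w (x, y + 1) - w (x, y) - (w (x + 1, y + 1) - w (x + 1, y))),
    mul_self_nonneg (w (x + 1, y) - w (x + 1, y - 1) - (w (x, y) - w (x, y - 1)))]

theorem mem_nb {l : ℕ} {B p : P} : p ∈ nb l B ↔
    (B.1 * l - (l / 4 : ℕ) ≤ p.1 ∧ p.1 ≤ B.1 * l + l + (l / 4 : ℕ)) ∧
      B.2 * l - (l / 4 : ℕ) ≤ p.2 ∧ p.2 ≤ B.2 * l + l + (l / 4 : ℕ) := by
  simp only [nb, fat, mem_product, mem_Icc, add_mul, one_mul]

theorem locN {w : P → ℝ} {l : ℕ} (hl : 100 ≤ l) (h1 : ∀ p, |w p| ≤ 1) (B : P)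
    (hf : ∀ x y, B.1 * l - l + 1 < x → x < B.1 * l + 2 * l - 1 → B.2 * l - l + 1 < y →
      y < B.2 * l + 2 * l - 1 → Har w x y) : Nf l (cf w) (nb l B) ≤ 500000 := by
  have e : nb l B = rc (B.1 * l - (l / 4 : ℕ)) (B.1 * l + l + (l / 4 : ℕ) + 1)
      (B.2 * l - (l / 4 : ℕ)) (B.2 * l + l + (l / 4 : ℕ) + 1) := by
    ext p
    rw [mem_nb, mem_rc]
    omega
  rw [e]
  generalize B.1 * l = A at *
  generalize B.2 * l = C at *
  obtain ⟨k, hk⟩ : ∃ k, k = l / 8 := ⟨_, rfl⟩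
  have k0 : 0 < k := by omega
  have s : ∀ A : ℤ, ((A + l + (l / 4 : ℕ) + 1 + k - (A - (l / 4 : ℕ) - k - 1) : ℤ) : ℝ) ≤ 16 * k :=
    fun A => by
      have : A + l + (l / 4 : ℕ) + 1 + k - (A - (l / 4 : ℕ) - k - 1) ≤ 16 * k := by omega
      exact_mod_cast this
  have b0 := cacc1 k0 h1 (by omega) (by omega) (s A) (s C) fun x y _ _ _ _ =>
    hf x y (by omega) (by omega) (by omega) (by omega)
  have b1 := cacc2 (w := w) (a := A - (l / 4 : ℕ)) (b := A + l + (l / 4 : ℕ) + 1)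
    (c := C - (l / 4 : ℕ)) (d := C + l + (l / 4 : ℕ) + 1) k0 (Or.inl ⟨rfl, rfl⟩) fun x y _ _ _ _ =>
    hf x y (by omega) (by omega) (by omega) (by omega)
  have b2 := cacc2 (w := w) (a := A - (l / 4 : ℕ)) (b := A + l + (l / 4 : ℕ) + 1)
    (c := C - (l / 4 : ℕ)) (d := C + l + (l / 4 : ℕ) + 1) k0 (Or.inr ⟨rfl, rfl⟩) fun x y _ _ _ _ =>
    hf x y (by omega) (by omega) (by omega) (by omega)
  have b3 := (Bf_mono w (a := A - (l / 4 : ℕ)) (b := A + l + (l / 4 : ℕ) + 1)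
    (c := C - (l / 4 : ℕ)) (d := C + l + (l / 4 : ℕ) + 1) (by omega) (by omega) (by omega)
    (by omega)).trans b0
  have b4 := sum_le_sum fun p (_ : p ∈ rc (A - (l / 4 : ℕ)) (A + l + (l / 4 : ℕ) + 1)
    (C - (l / 4 : ℕ)) (C + l + (l / 4 : ℕ) + 1)) => n2_cf w p
  rw [sum_add_distrib] at b4
  have b5 := b4.trans (add_le_add b1 b2)
  have l9 : (l : ℝ) ^ 2 * (1 / k) ^ 2 ≤ 81 := by
    have h2 : (l : ℝ) ≤ 9 * k := by exact_mod_cast (by omega : l ≤ 9 * k)
    have h3 : (0 : ℝ) < k := by exact_mod_cast k0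
    rw [← mul_pow, mul_one_div, show (81 : ℝ) = 9 ^ 2 by norm_num]
    gcongr
    rwa [div_le_iff₀ h3]
  rw [Nf, sum_add_distrib, ← mul_sum]
  simp only [n1_cf, ← mul_sum]
  have b6 := mul_le_mul_of_nonneg_left b5 (sq_nonneg (l : ℝ))
  have b7 := mul_le_mul l9 b0 (Bf_nn _ _ _ _ _) (by norm_num)
  rw [Bf] at b3
  nlinarith

end Pool.Agent.Lib.MP_9cc147_pr.Cx.U
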