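import Pool.Agent.Lib.MP_9cc147_pr.Cx.U.B

/-! Upper and lower bounds for the energy of the harmonic background. -/

open scoped Classical
open Finset

noncomputable section
namespace Pool.Agent.Lib.MP_9cc147_pr.Cx.U

def EE (n : ℕ) : ℝ := Bf (uu n) (uu n) 0 n 0 n

theorem Rt_eq (n : ℕ) : Rt n = 1 / 2 * EE n := by
  simp only [Rt, n1_cf, ← mul_sum]
  rfl

theorem Bf_eq (f g : P → ℝ) (a b c d : ℤ) :
    Bf f g a b c d = ∑ x ∈ Ico a b, ∑ y ∈ Ico c d, F2 f g (x, y) := sum_product _ _ _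

theorem dirichlet (n : ℕ) {f : P → ℝ} (hf : ∀ x y : ℤ, 0 ≤ x → x ≤ n → 0 ≤ y → y ≤ n →
    x = 0 ∨ x = n ∨ y = 0 ∨ y = n → f (x, y) = uu n (x, y)) : EE n ≤ Bf f f 0 n 0 n := by
  have h0 := orth (f := uu n) (g := fun p => f p - uu n p) (a := 0) (b := n) (c := 0) (d := n)
    (fun x y => uu_har n) fun x y a b c d e => sub_eq_zero.2 (hf x y a b c d e)
  have h1 := Bf_nn (fun p => f p - uu n p) 0 n 0 n
  have h2 : Bf f f 0 n 0 n = EE n + 2 * Bf (uu n) (fun p => f p - uu n p) 0 n 0 n +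
      Bf (fun p => f p - uu n p) (fun p => f p - uu n p) 0 n 0 n := by
    simp only [EE, Bf, mul_sum, ← sum_add_distrib]
    refine sum_congr rfl fun p _ => ?_
    rw [F2_eq _ _ p.1 p.2, F2_eq _ _ p.1 p.2, F2_eq _ _ p.1 p.2, F2_eq _ _ p.1 p.2]
    ring
  linarith

theorem ico_split (F : ℤ → ℝ) {a b c : ℤ} (h1 : a ≤ b) (h2 : b ≤ c) :
    ∑ x ∈ Ico a c, F x = ∑ x ∈ Ico a b, F x + ∑ x ∈ Ico b c, F x := by
  rw [← sum_union (Ico_disjoint_Ico_consecutive a b c), Ico_union_Ico_eq_Ico h1 h2]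

/-- the map that collapses `[i, i + r]` -/
def col (i : ℤ) (r : ℕ) (x : ℤ) : ℤ := if x ≤ i then x else if x ≤ i + r then i else x - r

theorem col_sum (G : ℤ → ℤ → ℝ) {i n : ℤ} (r : ℕ) (h0 : 0 ≤ i) (h1 : i ≤ n) :
    ∑ x ∈ Ico 0 (n + r), G (col i r x) (col i r (x + 1)) =
      ∑ x ∈ Ico 0 n, G x (x + 1) + r * G i i := by
  rw [ico_split _ h0 (by omega : i ≤ n + r),
    ico_split _ (by omega : i ≤ i + r) (by omega : i + r ≤ n + r), ico_split _ h0 h1,
    ← sum_Ico_add' _ i n (r : ℤ)]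
  have e1 : ∑ x ∈ Ico 0 i, G (col i r x) (col i r (x + 1)) = ∑ x ∈ Ico 0 i, G x (x + 1) :=
    sum_congr rfl fun x hx => by
      rw [mem_Ico] at hx
      congr 1 <;> unfold col <;> split_ifs <;> omega
  have e2 : ∑ x ∈ Ico i (i + r), G (col i r x) (col i r (x + 1)) = r * G i i := by
    rw [sum_congr rfl fun x hx => show _ = G i i by
      rw [mem_Ico] at hx
      congr 1 <;> unfold col <;> split_ifs <;> omega]
    simp
  have e3 : ∑ x ∈ Ico i n, G (col i r (x + r)) (col i r (x + r + 1)) =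
      ∑ x ∈ Ico i n, G x (x + 1) :=
    sum_congr rfl fun x hx => by
      rw [mem_Ico] at hx
      congr 1 <;> unfold col <;> split_ifs <;> omega
  rw [e1, e2, e3]
  ring

def F4 (u : P → ℝ) (x x' y y' : ℤ) : ℝ :=
  (u (x', y') - u (x', y)) ^ 2 + (u (x, y') - u (x', y')) ^ 2 + (u (x, y) - u (x, y')) ^ 2 +
    (u (x', y) - u (x, y)) ^ 2

theorem F4_eq (u : P → ℝ) (x y : ℤ) : F4 u x (x + 1) y (y + 1) = F2 u u (x, y) := by
  rw [F2_eq, F4]
  ring

theorem stretch (n r : ℕ) {i : ℤ} (h0 : 0 < i) (h1 : i < n) : EE (n + r) ≤ EE n +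
    2 * r * (∑ y ∈ Ico (0 : ℤ) n, F2 (uu n) (uu n) (i, y) +
      ∑ x ∈ Ico (0 : ℤ) n, F2 (uu n) (uu n) (x, i)) := by
  refine (dirichlet (n + r) (f := fun p => uu n (col i r p.1, col i r p.2))
    fun x y a b c d e => ?_).trans ?_
  · push_cast at *
    by_cases h : (x = 0 ∧ 0 < y ∧ y ≤ n + r) ∨ (y = n + r ∧ 0 ≤ x ∧ x < n + r)
    · rw [uu_one (n + r) (by push_cast; exact h), uu_one n]
      unfold col
      split_ifs <;> omega
    · rw [uu_zero (n + r) (by push_cast; omega), uu_zero n]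
      unfold col
      split_ifs <;> omega
  · have e : ∀ x y, F2 (fun p => uu n (col i r p.1, col i r p.2))
        (fun p => uu n (col i r p.1, col i r p.2)) (x, y) =
        F4 (uu n) (col i r x) (col i r (x + 1)) (col i r y) (col i r (y + 1)) := fun x y => by
      rw [F2_eq, F4]
      ring
    rw [Bf_eq, EE, Bf_eq]
    push_cast
    simp only [e, col_sum _ r h0.le h1.le]
    rw [col_sum (fun x x' => ∑ y ∈ Ico (0 : ℤ) n, F4 (uu n) x x' y (y + 1) +
      r * F4 (uu n) x x' i i) r h0.le h1.le]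
    simp only [F4_eq, sum_add_distrib, ← mul_sum]
    have a1 : ∑ y ∈ Ico (0 : ℤ) n, F4 (uu n) i i y (y + 1) ≤
        ∑ y ∈ Ico (0 : ℤ) n, 2 * F2 (uu n) (uu n) (i, y) := sum_le_sum fun y _ => by
      rw [← F4_eq]
      unfold F4
      nlinarith [sq_nonneg (uu n (i + 1, y + 1) - uu n (i + 1, y)),
        sq_nonneg (uu n (i, y + 1) - uu n (i + 1, y + 1)), sq_nonneg (uu n (i + 1, y) - uu n (i, y))]
    have a2 : ∑ x ∈ Ico (0 : ℤ) n, F4 (uu n) x (x + 1) i i ≤
        ∑ x ∈ Ico (0 : ℤ) n, 2 * F2 (uu n) (uu n) (x, i) := sum_le_sum fun x _ => by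
      rw [← F4_eq]
      unfold F4
      nlinarith [sq_nonneg (uu n (x + 1, i + 1) - uu n (x + 1, i)),
        sq_nonneg (uu n (x, i + 1) - uu n (x + 1, i + 1)), sq_nonneg (uu n (x, i) - uu n (x, i + 1))]
    have a3 : F4 (uu n) i i i i = 0 := by simp [F4]
    rw [← mul_sum] at a1 a2
    have r0 : (0 : ℝ) ≤ r := Nat.cast_nonneg _
    rw [a3]
    nlinarith [mul_le_mul_of_nonneg_left a1 r0, mul_le_mul_of_nonneg_left a2 r0]

theorem grow {n r : ℕ} (hn : 16 ≤ n) (hr : r ≤ n) : EE (n + r) ≤ EE n + 6272 := by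
  obtain ⟨k, hk⟩ : ∃ k, k = n / 4 := ⟨_, rfl⟩
  obtain ⟨h, hh⟩ : ∃ h, h = n / 2 := ⟨_, rfl⟩
  have k0 : 0 < k := by omega
  have s : ∀ a b : ℤ, b - a ≤ 5 * k → ((b - a : ℤ) : ℝ) ≤ 5 * k := fun a b e => by
    exact_mod_cast e
  have b1 := enU n k0 (a := k + 1) (b := n - k - 1) (c := 0) (d := h) (by omega) (by omega)
    (by omega) (by omega) (by omega) (by omega) (s _ _ (by omega)) (s _ _ (by omega)) (by omega)
  have b2 := enU n k0 (a := k + 1) (b := n - k - 1) (c := h) (d := n) (by omega) (by omega)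
    (by omega) (by omega) (by omega) (by omega) (s _ _ (by omega)) (s _ _ (by omega)) (by omega)
  have b3 := enU n k0 (c := k + 1) (d := n - k - 1) (a := 0) (b := h) (by omega) (by omega)
    (by omega) (by omega) (by omega) (by omega) (s _ _ (by omega)) (s _ _ (by omega)) (by omega)
  have b4 := enU n k0 (c := k + 1) (d := n - k - 1) (a := h) (b := n) (by omega) (by omega)
    (by omega) (by omega) (by omega) (by omega) (s _ _ (by omega)) (s _ _ (by omega)) (by omega)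
  rw [Bf_eq] at b1 b2 b3 b4
  rw [sum_comm] at b3 b4
  have k1 : (0 : ℝ) < k := by exact_mod_cast k0
  obtain ⟨i, hi, e⟩ := exists_le_of_sum_le (s := Ico (k + 1 : ℤ) (n - k - 1))
    (f := fun i => ∑ y ∈ Ico (0 : ℤ) n, F2 (uu n) (uu n) (i, y) +
      ∑ x ∈ Ico (0 : ℤ) n, F2 (uu n) (uu n) (x, i)) (g := fun _ => 3136 / n)
    ⟨k + 1, by rw [mem_Ico]; omega⟩ (by
      simp only [ico_split _ (by omega : (0 : ℤ) ≤ h) (by omega : (h : ℤ) ≤ n), sum_add_distrib]
      rw [sum_const, nsmul_eq_mul, Int.card_Ico]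
      have n0 : (0 : ℝ) < n := by exact_mod_cast (by omega : 0 < n)
      have c1 : (n : ℝ) ≤ 4 * ((n - k - 1 - (k + 1) : ℤ).toNat : ℝ) := by
        exact_mod_cast (by omega : n ≤ 4 * (n - k - 1 - (k + 1) : ℤ).toNat)
      rw [← mul_div_assoc, le_div_iff₀ n0]
      nlinarith)
  rw [mem_Ico] at hi
  refine (stretch n r (i := i) (by omega) (by omega)).trans ?_
  have n0 : (0 : ℝ) < n := by exact_mod_cast (by omega : 0 < n)
  have r1 : (r : ℝ) ≤ n := by exact_mod_cast hr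
  have := mul_le_mul r1 e (add_nonneg (sum_nonneg fun _ _ => F2_nn _ _)
    (sum_nonneg fun _ _ => F2_nn _ _)) n0.le
  rw [mul_div_cancel₀ _ n0.ne'] at this
  linarith

theorem crude {n : ℕ} (hn : n ≤ 32) : EE n ≤ 4096 := by
  have h : EE n ≤ (rc 0 n 0 n).card • (4 : ℝ) := sum_le_card_nsmul _ _ _ fun p _ => by
    have q : ∀ a b : P, (uu n a - uu n b) * (uu n a - uu n b) ≤ 1 := fun a b => by
      nlinarith [uu_01 n a, uu_01 n b]
    rw [F2_eq _ _ p.1 p.2]
    linarith [q (p.1 + 1, p.2 + 1) (p.1 + 1, p.2), q (p.1, p.2 + 1) (p.1 + 1, p.2 + 1),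
      q (p.1, p.2) (p.1, p.2 + 1), q (p.1 + 1, p.2) (p.1, p.2)]
  rw [nsmul_eq_mul, card_rc _ _ _ _ (by omega) (by omega)] at h
  have : (n : ℝ) ≤ 32 := by exact_mod_cast hn
  push_cast at h
  nlinarith [Nat.cast_nonneg (α := ℝ) n]

theorem dbl (n : ℕ) : EE (2 * n) ≤ EE n + 6272 := by
  by_cases h : 16 ≤ n
  · rw [two_mul]
    exact grow h le_rfl
  · linarith [crude (n := 2 * n) (by omega), show 0 ≤ EE n from Bf_nn _ _ _ _ _]

theorem upper (n : ℕ) : EE n ≤ 20000 * (1 + Real.log n) := by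
  induction n using Nat.strong_induction_on with
  | _ n ih =>
    by_cases h : n ≤ 32
    · linarith [crude h, Real.log_natCast_nonneg n]
    · have h1 := grow (n := n - n / 2) (r := n / 2) (by omega) (by omega)
      have h2 := ih (n - n / 2) (by omega)
      rw [show n - n / 2 + n / 2 = n by omega] at h1
      have m0 : (0 : ℝ) < (n - n / 2 : ℕ) := by exact_mod_cast (by omega : 0 < n - n / 2)
      have n0 : (0 : ℝ) < n := by exact_mod_cast (by omega : 0 < n)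
      have h3 : ((n - n / 2 : ℕ) : ℝ) / n ≤ 2 / 3 := by
        rw [div_le_div_iff₀ n0 (by norm_num)]
        exact_mod_cast (by omega : (n - n / 2) * 3 ≤ 2 * n)
      have h4 := Real.log_le_sub_one_of_pos (div_pos m0 n0)
      rw [Real.log_div m0.ne' n0.ne'] at h4
      linarith

theorem ico_range (F : ℤ → ℝ) (r : ℕ) : ∑ x ∈ Ico (0 : ℤ) r, F x = ∑ x ∈ range r, F x := by
  induction r with
  | zero => simp
  | succ r ih =>
    rw [sum_range_succ, ← ih, ico_split _ (by omega : (0 : ℤ) ≤ r) (by omega),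
      show Ico (r : ℤ) ((r + 1 : ℕ) : ℤ) = {(r : ℤ)} by ext x; simp; omega, sum_singleton]

theorem tele (g : ℤ → ℝ) (r : ℕ) :
    (g r - g 0) ^ 2 ≤ r * ∑ x ∈ range r, (g (x + 1) - g x) ^ 2 := by
  have h := sum_range_sub (fun x : ℕ => g x) r
  have h2 := sq_sum_le_card_mul_sum_sq (s := range r) (f := fun x : ℕ => g (x + 1) - g x)
  push_cast at h
  rwa [h, card_range] at h2

theorem harm (n : ℕ) (hn : 1 ≤ n) : Real.log n ≤ ∑ r ∈ range n, 1 / (r : ℝ) := by
  induction n, hn using Nat.le_induction with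
  | base => simp
  | succ n hn ih =>
    have n0 : (0 : ℝ) < n := by exact_mod_cast hn
    have h4 := Real.log_le_sub_one_of_pos (div_pos (by linarith : (0 : ℝ) < n + 1) n0)
    rw [Real.log_div (by linarith) n0.ne', add_div, div_self n0.ne'] at h4
    rw [sum_range_succ]
    push_cast
    linarith

theorem lower (n : ℕ) (hn : 1 ≤ n) : Real.log n / 2 ≤ EE n := by
  have h1 : ∑ r ∈ range n, (∑ x ∈ range n, (uu n ((x : ℤ) + 1, (r : ℤ)) - uu n (x, r)) ^ 2 +
      ∑ y ∈ range n, (uu n ((r : ℤ), (y : ℤ) + 1) - uu n (r, y)) ^ 2) ≤ EE n := by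
    rw [EE, Bf_eq, sum_add_distrib, sum_comm, ← sum_add_distrib]
    simp only [ico_range, ← sum_add_distrib]
    refine sum_le_sum fun x _ => sum_le_sum fun y _ => ?_
    rw [← F4_eq, F4]
    nlinarith [sq_nonneg (uu n ((x : ℤ) + 1, (y : ℤ) + 1) - uu n (x + 1, y)),
      sq_nonneg (uu n ((x : ℤ), (y : ℤ) + 1) - uu n (x + 1, y + 1))]
  refine le_trans ?_ h1
  refine (div_le_div_of_nonneg_right (harm n hn) (by norm_num)).trans ?_
  rw [sum_div]
  refine sum_le_sum fun r hr => ?_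
  rw [mem_range] at hr
  have m : ∀ F : ℕ → ℝ, ∑ x ∈ range r, F x ^ 2 ≤ ∑ x ∈ range n, F x ^ 2 := fun F =>
    sum_le_sum_of_subset_of_nonneg (range_mono hr.le) fun _ _ _ => sq_nonneg _
  refine le_trans ?_ (add_le_add (m _) (m _))
  rcases Nat.eq_zero_or_pos r with rfl | r0
  · simp
  have t1 := tele (fun x => uu n (x, r)) r
  have t2 := tele (fun y => uu n (r, y)) r
  rw [uu_one n (x := 0) (by omega)] at t1
  rw [uu_zero n (y := 0) (by omega)] at t2
  have r1 : (0 : ℝ) < r := by exact_mod_cast r0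
  rw [div_div, div_le_iff₀ (by positivity)]
  nlinarith [sq_nonneg (2 * uu n ((r : ℤ), (r : ℤ)) - 1)]

end Pool.Agent.Lib.MP_9cc147_pr.Cx.U
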